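import Mathlib
import Pool.Agent.H27.Haar

namespace Pool.Agent.Results.MP_5c86b6_an.Small

open Pool.Agent.H27.Haar Polynomial

theorem result : ∃ (c a : ℕ → ℝ) (P : ℕ → ℝ[X]),
    (∀ n, 1 ≤ n → 0 < c n ∧ c n < 1) ∧ a 0 = 1 ∧ (∀ n, 1 ≤ n → a n = 1 - c n) ∧
    P 0 = 1 ∧ P 1 = X ∧
    (∀ n, 1 ≤ n → X * P n = C (a n) * P (n + 1) + C (c n) * P (n - 1)) ∧
    NonnegLin P ∧ IsGreatest (Set.range fun n => |(P n).eval 0|) 1 ∧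
    ∏ k ∈ Finset.Icc 1 2, a (k - 1) / c k < 2 := by
  refine ⟨cc, aa, PP, fun n hn => ⟨(cc_bd n).2.2 hn, (cc_bd n).2.1⟩, by simp [aa, cc],
    fun n _ => rfl, rfl, rfl, fun n hn => ?_, nonnegLin, ⟨⟨0, by simp [PP]⟩, ?_⟩, ?_⟩
  · obtain ⟨k, rfl⟩ : ∃ k, n = k + 1 := ⟨n - 1, by omega⟩
    simpa using PP_rec k
  · rintro _ ⟨n, rfl⟩; exact zero_dual n
  · rw [show Finset.Icc 1 2 = {1, 2} from rfl]
    simp [aa, c1, c2]; norm_num [cc]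

end Pool.Agent.Results.MP_5c86b6_an.Small
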